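import Mathlib
import Pool.Agent.L7h72.AM.All

/-!
# All the moments of `2 ^ rank` over all the elliptic curves over `ℚ` with full rational 2-torsion

All elliptic curves over `ℚ` whose group of rational points has a subgroup isomorphic to
`Z/2 x Z/2`, ordered by height. The `excess` of such a curve is the number of the primes of split
multiplicative reduction which divide one of the three differences of the roots, minus the number of
all the primes which divide the two other ones (if this is positive for one of the three differences;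
otherwise `0`). Up to squares it is the logarithm to the base 2 of the largest Tamagawa ratio of a
2-isogeny of the curve (or `0`).

For every `k` the average of `(2 ^ (rank - excess)) ^ k` is bounded; the average of `4 ^ rank` is
bounded; the excess is `0` for all but `O((log H) ^ (-δ))` of the curves; the proportion of the curves
of rank at least `r` is `O_k(2 ^ (- k r) + 2 ^ (-r) (log H) ^ (-δ))` for every `k`.
-/

set_option autoImplicit false

namespace Pool.Agent.Results.MP_157626_nt.AllMomentsByHeight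

open Finset Filter

/-- the curve `y² = x³ + A x + B` over `ℚ` -/
def E (A B : ℤ) : WeierstrassCurve ℚ := ⟨0, 0, 0, (A : ℚ), (B : ℚ)⟩

open Classical in
/-- The pairs `(A, B)` of integers such that `4 A³ + 27 B² ≠ 0`, there is no prime `p` with
`p⁴ ∣ A` and `p⁶ ∣ B`, the height `max (4 |A|³) (27 B²)` is at most `H`, and `Z/2 x Z/2` embeds in
the group of the rational points of `y² = x³ + A x + B`. (The bounds `|A|, |B| ≤ H` follow from the
bound of the height. Every elliptic curve over `ℚ` is isomorphic to `E A B` for exactly one pair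
with the first two properties.) -/
noncomputable def Fam (H : ℕ) : Finset (ℤ × ℤ) :=
  ((Icc (-(H : ℤ)) H) ×ˢ (Icc (-(H : ℤ)) H)).filter (fun c : ℤ × ℤ =>
    4 * c.1 ^ 3 + 27 * c.2 ^ 2 ≠ 0 ∧ 4 * |c.1| ^ 3 ≤ H ∧ 27 * c.2 ^ 2 ≤ H ∧
    (∀ p : ℕ, p.Prime → ¬ ((p : ℤ) ^ 4 ∣ c.1 ∧ (p : ℤ) ^ 6 ∣ c.2)) ∧
    ∃ f : ZMod 2 × ZMod 2 →+ (E c.1 c.2).toAffine.Point, Function.Injective f)

/-- the rank of `y² = x³ + A x + B` -/
noncomputable def rank (c : ℤ × ℤ) : ℕ := Module.finrank ℤ (E c.1 c.2).toAffine.Point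

/-- the number of the prime divisors of `n` -/
def omega (n : ℤ) : ℕ := n.natAbs.primeFactors.card

/-- the number of the primes `p ∣ n` such that `m` is a nonzero square modulo `p` -/
def omegaSplit (n m : ℤ) : ℕ := (n.natAbs.primeFactors.filter (fun p => jacobiSym m p = 1)).card

/-- the excesses of `x³ + A x + B = (x - e₁) (x - e₂) (x - e₃)`: a prime `p ≥ 5` that divides `e₂ - e₃`
and for which `e₂ - e₁` is a nonzero square modulo `p` is a prime of split multiplicative reduction
(truncated subtraction) -/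
def Excesses (c : ℤ × ℤ) : Set ℕ := {n | ∃ e₁ e₂ e₃ : ℤ, e₁ + e₂ + e₃ = 0 ∧
  e₁ * e₂ + e₁ * e₃ + e₂ * e₃ = c.1 ∧ -(e₁ * e₂ * e₃) = c.2 ∧
  n = omegaSplit (e₂ - e₃) (e₂ - e₁) - (omega (e₁ - e₂) + omega (e₁ - e₃))}

/-- the excess of the curve: the largest of the numbers for the orders of the roots -/
noncomputable def excess (c : ℤ × ℤ) : ℕ := sSup (Excesses c)

lemma Fam_eq (H : ℕ) : Fam H = Pool.Agent.W307.RT.Cv 2 H := by
  classical
  unfold Fam Pool.Agent.W307.RT.Cv
  apply filter_congr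
  intro c _
  have h : Pool.Agent.W307.RT.HasT 2 (Pool.Agent.W307.RT.Sh c.1 c.2) ↔
      ∃ f : ZMod 2 × ZMod 2 →+ (E c.1 c.2).toAffine.Point, Function.Injective f :=
    Pool.Agent.W307.RT.tors_iff
  rw [h]

open Classical in
/-- **Theorem.** Let `Fam H` be the set of the elliptic curves over `ℚ` of height at most `H` with a
subgroup `Z/2 x Z/2`. The number of these curves tends to infinity with `H`; the average of
`4 ^ rank` is bounded; for every `k` the average of `(2 ^ (rank - excess)) ^ k` is bounded; for some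
`δ > 0` the proportion of the curves with positive excess is at most `C / (log H) ^ δ`, and for every
`k` the proportion of the curves of rank at least `r` is at most
`C_k (2 ^ (- k r) + 2 ^ (-r) (log H) ^ (-δ))`, uniformly in `r` and `H`. -/
theorem result : Tendsto (fun H : ℕ => (Fam H).card) atTop atTop ∧
    (∃ C : ℝ, ∀ H : ℕ, ∑ c ∈ Fam H, (4 : ℝ) ^ rank c ≤ C * (Fam H).card) ∧
    (∀ k : ℕ, ∃ C : ℝ, ∀ H : ℕ,
      ∑ c ∈ Fam H, ((2 : ℝ) ^ rank c / 2 ^ excess c) ^ k ≤ C * (Fam H).card) ∧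
    ∃ δ : ℝ, 0 < δ ∧
      (∃ C : ℝ, ∀ H : ℕ, 3 ≤ H →
        (((Fam H).filter (fun c => 0 < excess c)).card : ℝ) ≤
          C * (Fam H).card / (Real.log H) ^ δ) ∧
      ∀ k : ℕ, ∃ C : ℝ, ∀ H r : ℕ, 3 ≤ H →
        (((Fam H).filter (fun c => r ≤ rank c)).card : ℝ) ≤
          C * (1 / 2 ^ (k * r) + 1 / (2 ^ r * (Real.log H) ^ δ)) * (Fam H).card := by
  have h1 : ∃ C : ℝ, ∀ H : ℕ, ∑ c ∈ Fam H, (4 : ℝ) ^ rank c ≤ C * (Fam H).card := by
    simp only [Fam_eq]
    exact Pool.Agent.L7h19.RH.main2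
  have h2 : ∀ k : ℕ, ∃ C : ℝ, ∀ H : ℕ,
      ∑ c ∈ Fam H, ((2 : ℝ) ^ rank c / 2 ^ excess c) ^ k ≤ C * (Fam H).card := by
    simp only [Fam_eq]
    exact Pool.Agent.L7h72.AM2.momk
  have h3 : ∃ c C : ℝ, 0 < c ∧ ∀ H : ℕ, 3 ≤ H →
      (((Fam H).filter (fun x => 0 < excess x)).card : ℝ) ≤
        C * (Fam H).card / (Real.log H) ^ c := by
    obtain ⟨c, C, hc, h⟩ := Pool.Agent.L7h72.AM2.bad
    refine ⟨c, C, hc, fun H hH => ?_⟩
    rw [Fam_eq]
    refine le_trans (le_of_eq ?_) (h H hH)
    congr 2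
  refine ⟨?_, h1, h2, ?_⟩
  · simp only [Fam_eq]
    exact Pool.Agent.W307.RT.tendsto_of_low Pool.Agent.L7h19.RH.low2
  · obtain ⟨δ, hδ, ha, hb⟩ := Pool.Agent.L7h72.AM2.tails Fam rank excess h1 h2 (by
      obtain ⟨c, C, hc, h⟩ := h3
      refine ⟨c, C, hc, fun H hH => le_trans (le_of_eq ?_) (h H hH)⟩
      congr 2)
    refine ⟨δ, hδ, ?_, fun k => ?_⟩
    · obtain ⟨C, hC⟩ := ha
      refine ⟨C, fun H hH => le_trans (le_of_eq ?_) (hC H hH)⟩
      congr 2
    · obtain ⟨C, hC⟩ := hb k
      refine ⟨C, fun H r hH => le_trans (le_of_eq ?_) (hC H r hH)⟩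
      congr 2

end Pool.Agent.Results.MP_157626_nt.AllMomentsByHeight
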