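import Mathlib
import Pool.Agent.L7h19.EA.Parts
import Pool.Agent.L7h19.EA.Parts2
import Pool.Agent.L7h19.IK.All
import Pool.Agent.L7h19.RP.AllParts
import Pool.Agent.L7h23.RP.StFree
import Pool.Agent.L7h50.UP.Up
import Pool.Agent.L7h56.IT.Des3
import Pool.Agent.L7h56.IT.Exp3
import Pool.Agent.L7h56.IK.Exp5
import Pool.Agent.L7h60.IS.Tk
import Pool.Agent.L7h65.IT.Exp4
import Pool.Agent.L7h65.IK.La
import Pool.Agent.L7h89.IT.Rk3
import Pool.Agent.L7h89.IT.Ava
import Pool.Agent.L7h89.IK.Avk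

/-!
# The rank in every one-parameter family with a rational 2-torsion point, in short intervals

Every elliptic curve over `ℚ(t)` with a rational point of order 2 is isomorphic to a curve
`E : y² = x (x² + a(t) x + b(t))` with `a, b ∈ ℤ[t]` and `b (a² - 4 b) ≠ 0`. For an integer `t` with
`b(t) (a(t)² - 4 b(t)) ≠ 0` let `δ(t)` be the number of the primes `p` dividing
`b(t) (a(t)² - 4 b(t))` such that `E_t` has a point over `ℚ_p` with an `x` of odd valuation, minus
the same number for the isogenous curve `y² = x (x² - 2 a(t) x + a(t)² - 4 b(t))`. (At the odd primes,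
`2 ^ δ(t)` is the ratio of the products of the Tamagawa numbers of the two curves, up to inversion.)

For every `ε > 0`, over the integers `t` of any interval `[u, v] ⊆ [-X, X]` of length at least
`X ^ ε`, for ALL `a, b`:

1. all moments of `2 ^ (rank E_t - |δ(t)|)` are bounded;
2. the sum of `rank E_t` is at most the sum of `|δ(t)|` plus `O(v - u)`;
3. there is a half-integer `l / 2` depending only on `a`, `b` such that `δ(t) = (l / 2) log log X + O(√(log log X))`
  on average; so the average of `rank E_t` is at most `|l / 2| log log X + O(√(log log X))`;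
4. all moments of `2 ^ (rank E_t)` are bounded in the families `y² = x³ + b(t) x` where no irreducible
  factor of `b` has an exponent which is `2` modulo `4`, and in the families
  `y² = x (x² + A D(t) x + B D(t)²)` of quadratic twists where `B (A² - 4 B)` is a square;
5. if `b` and `a² - 4 b` are squarefree over `ℚ`: all moments of
  `2 ^ (rank E_t - |ω(b(t)) - ω(a(t)² - 4 b(t))|)` are bounded, and the average of `rank E_t` is at most
  `|n - n'| log log X + O(√(log log X))`, `n` and `n'` the numbers of the irreducible factors of `b` and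
  of `a² - 4 b`.
-/

set_option maxHeartbeats 1000000

namespace Pool.Agent.Results.MP_157626_nt.EveryTwoTorsionFamily

open Finset Polynomial

/-- the curve `y² = x (x² + A x + B)` over `ℚ` -/
def E (A B : ℤ) : WeierstrassCurve ℚ := ⟨0, (A : ℚ), 0, (B : ℚ), 0⟩

/-- the rank of the group of the rational points of `y² = x (x² + A x + B)` -/
noncomputable def rk (A B : ℤ) : ℕ := Module.finrank ℤ (E A B).toAffine.Point

/-- `p` is a prime and over `ℚ_p` the curve `y² = x (x² + A x + B)` has a point `(x, y)` with an `x ≠ 0`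
of odd valuation -/
def HasOdd (p : ℕ) (A B : ℤ) : Prop :=
  ∃ _ : Fact p.Prime, ∃ x y : ℚ_[p], x ≠ 0 ∧ y ^ 2 = x * (x ^ 2 + (A : ℚ_[p]) * x + (B : ℚ_[p])) ∧
    Odd x.valuation

open Classical in
/-- the number of the primes `p` dividing `B (A² - 4 B)` such that `y² = x (x² + A x + B)` has a point
over `ℚ_p` with an `x` of odd valuation, minus the same number for the isogenous curve
`y² = x (x² - 2 A x + A² - 4 B)` -/
noncomputable def delta (A B : ℤ) : ℤ :=
  (((B * (A ^ 2 - 4 * B)).natAbs.primeFactors.filter (fun p => HasOdd p A B)).card : ℤ) -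
  (((B * (A ^ 2 - 4 * B)).natAbs.primeFactors.filter
    (fun p => HasOdd p (-2 * A) (A ^ 2 - 4 * B))).card : ℤ)

/-- the number of the primes which divide the integer `n` -/
def omega (n : ℤ) : ℕ := n.natAbs.primeFactors.card

/-- the number of the irreducible factors of `g` over `ℚ` (with multiplicity) -/
noncomputable def numFactors (g : ℤ[X]) : ℕ :=
  (UniqueFactorizationMonoid.normalizedFactors (g.map (Int.castRingHom ℚ))).card

/-- the integers `t` in `[u, v]` with `b(t) (a(t)² - 4 b(t)) ≠ 0` -/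
noncomputable def good (a b : ℤ[X]) (u v : ℤ) : Finset ℤ :=
  (Icc u v).filter (fun t : ℤ => b.eval t * (a.eval t ^ 2 - 4 * b.eval t) ≠ 0)

/-- the families of part 4: `a = 0` and no irreducible factor of positive degree of `b` has an exponent
which is `2` modulo `4`, or `a = A D`, `b = B D²` with integers `A`, `B` such that `B (A² - 4 B)` is a
square -/
def Balanced (a b : ℤ[X]) : Prop :=
  (a = 0 ∧ ∀ (f : ℤ[X]) (m : ℕ), Irreducible f → 0 < f.natDegree → f ^ m ∣ b → ¬ f ^ (m + 1) ∣ b →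
    m % 4 ≠ 2) ∨
  ∃ (A B : ℤ) (D : ℤ[X]), IsSquare (B * (A ^ 2 - 4 * B)) ∧ a = C A * D ∧ b = C B * D ^ 2

lemma hasOdd_iff (p : ℕ) (A B : ℤ) : HasOdd p A B ↔ Pool.Agent.L7h19.EA.OddAt p A B := by
  unfold HasOdd Pool.Agent.L7h19.EA.OddAt Pool.Agent.L7h19.EA.Pt
  constructor
  · rintro ⟨h, x, y, hx, hy, ho⟩
    exact ⟨h, x, ⟨hx, y, hy⟩, ho⟩
  · rintro ⟨h, x, ⟨hx, y, hy⟩, ho⟩
    exact ⟨h, x, y, hx, hy, ho⟩

lemma delta_eq (A B : ℤ) : ((delta A B : ℤ) : ℝ) = Pool.Agent.L7h19.EA.dl A B := by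
  classical
  unfold delta Pool.Agent.L7h19.EA.dl
  rw [Int.cast_sub, Int.cast_natCast, Int.cast_natCast]
  congr 3
  · exact filter_congr fun p _ => hasOdd_iff p A B
  · exact filter_congr fun p _ => hasOdd_iff p _ _

/-- `x ≤ 2 · 2 ^ x` -/
lemma le_two_rpow (x : ℝ) : x ≤ 2 * (2 : ℝ) ^ x := by
  have h1 : (2 : ℝ) ^ x = Real.exp (Real.log 2 * x) := Real.rpow_def_of_pos (by norm_num) x
  have h2 : Real.log 2 * x + 1 ≤ Real.exp (Real.log 2 * x) := Real.add_one_le_exp _
  have h3 : (0.6931471803 : ℝ) < Real.log 2 := Real.log_two_gt_d9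
  have h4 : (0 : ℝ) < (2 : ℝ) ^ x := Real.rpow_pos_of_pos (by norm_num) x
  rcases le_or_gt x 0 with hx | hx
  · linarith
  · rw [h1]
    nlinarith

lemma balanced {a b : ℤ[X]} (hab : b * (a ^ 2 - 4 * b) ≠ 0) (h : Balanced a b) (f : ℤ[X])
    (hf : Irreducible f) (hd : 0 < f.natDegree) : Pool.Agent.L7h19.EA.BalF a b f := by
  rcases h with ⟨rfl, h⟩ | ⟨A, B, D, hs, rfl, rfl⟩
  · exact Pool.Agent.L7h19.EA.zb0 b f (mul_ne_zero_iff.1 hab).1 hf hd
      fun m h1 h2 => h f m hf hd h1 h2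
  · have h1 := (mul_ne_zero_iff.1 hab).1
    have hD : D ≠ 0 := by
      rintro rfl
      exact h1 (by ring)
    refine Pool.Agent.L7h19.EA.tw0 A B D f ?_ hs hD hf hd
    intro h2
    apply hab
    have e : C B * D ^ 2 * ((C A * D) ^ 2 - 4 * (C B * D ^ 2)) =
        C (B * (A ^ 2 - 4 * B)) * D ^ 4 := by
      have e4 : (C (4 : ℤ) : ℤ[X]) = 4 := rfl
      rw [C_mul, C_sub, C_mul, C_pow, e4]
      ring
    rw [e, h2, C_0, zero_mul]

/-- The ranks in every family `y² = x (x² + a(t) x + b(t))` over short intervals. -/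
theorem result (a b : ℤ[X]) (hab : b * (a ^ 2 - 4 * b) ≠ 0) :
    ∃ l : ℤ, ∀ ε : ℝ, 0 < ε → ∀ k : ℕ, ∃ C : ℝ, ∀ (X : ℕ) (u v : ℤ), 3 ≤ X → -(X : ℤ) ≤ u → v ≤ X →
      (X : ℝ) ^ ε ≤ (v : ℝ) - u →
      (∑ t ∈ good a b u v,
        (2 : ℝ) ^ ((k : ℝ) * ((rk (a.eval t) (b.eval t) : ℝ) -
          |(delta (a.eval t) (b.eval t) : ℝ)|)) ≤ C * ((v : ℝ) - u)) ∧
      (∑ t ∈ good a b u v, (rk (a.eval t) (b.eval t) : ℝ) ≤
        ∑ t ∈ good a b u v, |(delta (a.eval t) (b.eval t) : ℝ)| + C * ((v : ℝ) - u)) ∧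
      ((∑ t ∈ good a b u v,
        |(delta (a.eval t) (b.eval t) : ℝ) - (l : ℝ) / 2 * Real.log (Real.log X)| ≤
          C * √(Real.log (Real.log X)) * ((v : ℝ) - u)) ∧
        (∑ t ∈ good a b u v, (rk (a.eval t) (b.eval t) : ℝ) ≤
          (|(l : ℝ) / 2| * Real.log (Real.log X) + C * √(Real.log (Real.log X))) *
            ((v : ℝ) - u))) ∧
      (Balanced a b → ∑ t ∈ good a b u v, (2 : ℝ) ^ (k * rk (a.eval t) (b.eval t)) ≤
        C * ((v : ℝ) - u)) ∧
      (Squarefree (b.map (Int.castRingHom ℚ)) →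
        Squarefree ((a ^ 2 - 4 * b).map (Int.castRingHom ℚ)) →
        (∑ t ∈ good a b u v,
          (2 : ℝ) ^ ((k : ℝ) * ((rk (a.eval t) (b.eval t) : ℝ) -
            |(omega (b.eval t) : ℝ) - (omega (a.eval t ^ 2 - 4 * b.eval t) : ℝ)|)) ≤
          C * ((v : ℝ) - u)) ∧
        (∑ t ∈ good a b u v, (rk (a.eval t) (b.eval t) : ℝ) ≤
          (|(numFactors b : ℝ) - (numFactors (a ^ 2 - 4 * b) : ℝ)| * Real.log (Real.log X) +
            C * √(Real.log (Real.log X))) * ((v : ℝ) - u))) := by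
  obtain ⟨l, hl⟩ := Pool.Agent.L7h19.EA.lam0 a b hab
  refine ⟨l, fun ε hε k => ?_⟩
  obtain ⟨C5, hC50, hC5⟩ := hl ε hε
  obtain ⟨C1, hC10, hC1⟩ := Pool.Agent.L7h19.EA.momE a b hab k ε hε
  obtain ⟨C2, hC20, hC2⟩ := Pool.Agent.L7h19.EA.momE a b hab 1 ε hε
  have h3 : ∃ C3 : ℝ, 0 ≤ C3 ∧ (Balanced a b → ∀ (X : ℕ) (u v : ℤ), 1 ≤ X → u.natAbs ≤ X →
      v.natAbs ≤ X → (X : ℝ) ^ ε ≤ (v : ℝ) - u →
      ∑ t ∈ good a b u v, (2 : ℝ) ^ (k * rk (a.eval t) (b.eval t)) ≤ C3 * ((v : ℝ) - u)) := by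
    by_cases hB : Balanced a b
    · obtain ⟨C3, hC30, hC3⟩ := Pool.Agent.L7h19.EA.momB a b hab
        (fun f hf hd _ => balanced hab hB f hf hd) k ε hε
      refine ⟨C3, hC30, fun _ X u v hX hu hv huv => ?_⟩
      refine le_trans (le_of_eq ?_) (hC3 X u v hX hu hv huv)
      refine sum_congr rfl fun t _ => ?_
      rw [Real.rpow_natCast, ← pow_mul, mul_comm k]
      rfl
    · exact ⟨0, le_rfl, fun h => absurd h hB⟩
  obtain ⟨C3, hC30, hC3⟩ := h3
  have h4 : ∃ C4 : ℝ, 0 ≤ C4 ∧ (Squarefree (b.map (Int.castRingHom ℚ)) →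
      Squarefree ((a ^ 2 - 4 * b).map (Int.castRingHom ℚ)) → ∀ (X : ℕ) (u v : ℤ), 3 ≤ X →
      u.natAbs ≤ X → v.natAbs ≤ X → (X : ℝ) ^ ε ≤ (v : ℝ) - u →
      (∑ t ∈ good a b u v,
          (2 : ℝ) ^ ((k : ℝ) * ((rk (a.eval t) (b.eval t) : ℝ) -
            |(omega (b.eval t) : ℝ) - (omega (a.eval t ^ 2 - 4 * b.eval t) : ℝ)|)) ≤
          C4 * ((v : ℝ) - u)) ∧
        (∑ t ∈ good a b u v, (rk (a.eval t) (b.eval t) : ℝ) ≤
          (|(numFactors b : ℝ) - (numFactors (a ^ 2 - 4 * b) : ℝ)| * Real.log (Real.log X) +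
            C4 * √(Real.log (Real.log X))) * ((v : ℝ) - u))) := by
    by_cases hb : Squarefree (b.map (Int.castRingHom ℚ))
    · by_cases hc : Squarefree ((a ^ 2 - 4 * b).map (Int.castRingHom ℚ))
      · obtain ⟨D1, hD1⟩ := Pool.Agent.L7h19.IT.allI3
          (Pool.Agent.L7h89.IT.rk3_of Pool.Agent.L7h56.IT.s_DES3) Pool.Agent.L7h56.IT.s_EXP3
          Pool.Agent.L7h65.IT.s_EXP4 Pool.Agent.L7h89.IT.s_AVA Pool.Agent.L7h89.IT.s_AVS
          Pool.Agent.L7h60.IS.s_TK Pool.Agent.L7h50.UP.stUp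
          Pool.Agent.L7h19.RP.parts.bw Pool.Agent.L7h23.RP.stFree a b hb hc ε hε
        obtain ⟨D2, hD20, hD2⟩ := Pool.Agent.L7h19.IK.allK
          (Pool.Agent.L7h89.IT.rk3_of Pool.Agent.L7h56.IT.s_DES3) Pool.Agent.L7h56.IK.s_EXP5
          Pool.Agent.L7h65.IK.s_LA Pool.Agent.L7h89.IK.s_AVK Pool.Agent.L7h50.UP.stUp
          Pool.Agent.L7h19.RP.parts.bw Pool.Agent.L7h23.RP.stFree k a b hb hc ε hε
        refine ⟨|D1| + D2, by positivity, fun _ _ X u v hX hu hv huv => ?_⟩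
        have hXr : (1 : ℝ) ≤ X := by
          have : (3 : ℝ) ≤ X := by exact_mod_cast hX
          linarith
        have h1 : (1 : ℝ) ≤ (v : ℝ) - u := (Real.one_le_rpow hXr hε.le).trans huv
        have hw : (0 : ℝ) ≤ (v : ℝ) - u := by linarith
        have hA := hD1 X u v hX (by omega) (by omega) huv
        have hB := hD2 X u v (by omega) hu hv huv
        have e1 : D2 ≤ |D1| + D2 := by
          have := abs_nonneg D1
          linarith
        have e2 : D1 ≤ |D1| + D2 := by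
          have := le_abs_self D1
          linarith
        refine ⟨?_, hA.2.trans ?_⟩
        · refine (le_trans (le_of_eq ?_) hB).trans (mul_le_mul_of_nonneg_right e1 hw)
          refine sum_congr rfl fun t _ => ?_
          rw [mul_comm, Real.rpow_mul_natCast (by norm_num)]
          rfl
        · refine mul_le_mul_of_nonneg_right ?_ hw
          have := mul_le_mul_of_nonneg_right e2 (Real.sqrt_nonneg (Real.log (Real.log X)))
          unfold numFactors
          unfold Pool.Agent.L7h19.IS.nf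
          linarith
      · exact ⟨0, le_rfl, fun _ h => absurd h hc⟩
    · exact ⟨0, le_rfl, fun h => absurd h hb⟩
  obtain ⟨C4, hC40, hC4⟩ := h4
  set C6 : ℝ := |(l : ℝ) / 2| * (1 + 1 / ε) + C5 + 8 * C2 with hC6
  have hC60 : 0 ≤ C6 := by positivity
  refine ⟨C1 + 2 * C2 + C3 + C4 + C6, fun X u v hX hu hv huv => ?_⟩
  have hXr : (1 : ℝ) ≤ X := by
    have : (3 : ℝ) ≤ X := by exact_mod_cast hX
    linarith
  have h1 : (1 : ℝ) ≤ (v : ℝ) - u := (Real.one_le_rpow hXr hε.le).trans huv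
  have h2 : (1 : ℤ) ≤ v - u := by exact_mod_cast h1
  have hw : (0 : ℝ) ≤ (v : ℝ) - u := by linarith
  have hu' : u.natAbs ≤ X := by omega
  have hv' : v.natAbs ≤ X := by omega
  have hA := hC1 X u v (by omega) hu' hv' huv
  have hB := hC2 X u v (by omega) hu' hv' huv
  have g1 : C1 ≤ C1 + 2 * C2 + C3 + C4 + C6 := by linarith
  have g2 : 2 * C2 ≤ C1 + 2 * C2 + C3 + C4 + C6 := by linarith
  have g3 : C3 ≤ C1 + 2 * C2 + C3 + C4 + C6 := by linarith
  have g4 : C4 ≤ C1 + 2 * C2 + C3 + C4 + C6 := by linarith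
  have g6 : C6 ≤ C1 + 2 * C2 + C3 + C4 + C6 := by linarith
  have hrk : ∑ t ∈ good a b u v, (rk (a.eval t) (b.eval t) : ℝ) ≤
      ∑ t ∈ good a b u v, |(delta (a.eval t) (b.eval t) : ℝ)| + 2 * C2 * ((v : ℝ) - u) := by
    have e1 : ∑ t ∈ good a b u v, (rk (a.eval t) (b.eval t) : ℝ) ≤
        ∑ t ∈ good a b u v, (|(delta (a.eval t) (b.eval t) : ℝ)| +
          2 * ((2 : ℝ) ^ ((rk (a.eval t) (b.eval t) : ℝ) -
            |Pool.Agent.L7h19.EA.dl (a.eval t) (b.eval t)|)) ^ 1) := by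
      refine sum_le_sum fun t _ => ?_
      have := le_two_rpow ((rk (a.eval t) (b.eval t) : ℝ) -
            |Pool.Agent.L7h19.EA.dl (a.eval t) (b.eval t)|)
      rw [delta_eq, pow_one]
      linarith
    refine e1.trans ?_
    rw [sum_add_distrib, ← mul_sum]
    have e2 : 2 * ∑ t ∈ good a b u v, ((2 : ℝ) ^ ((rk (a.eval t) (b.eval t) : ℝ) -
            |Pool.Agent.L7h19.EA.dl (a.eval t) (b.eval t)|)) ^ 1 ≤ 2 * (C2 * ((v : ℝ) - u)) :=
      mul_le_mul_of_nonneg_left hB (by norm_num)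
    linarith
  have hls : ∑ t ∈ good a b u v,
      |(delta (a.eval t) (b.eval t) : ℝ) - (l : ℝ) / 2 * Real.log (Real.log X)| ≤
        C5 * ((v : ℝ) - u) * √(Real.log (Real.log X)) := by
    refine le_trans (le_of_eq ?_) (hC5 X u v hX hu' hv' huv)
    refine sum_congr rfl fun t _ => ?_
    rw [delta_eq]
  refine ⟨?_, ?_, ⟨?_, ?_⟩, fun hbal => ?_, fun hb hc => ?_⟩
  · refine (le_trans (le_of_eq ?_) hA).trans (mul_le_mul_of_nonneg_right g1 hw)
    refine sum_congr rfl fun t _ => ?_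
    rw [mul_comm, Real.rpow_mul_natCast (by norm_num), delta_eq]
    rfl
  · have e3 := mul_le_mul_of_nonneg_right g2 hw
    linarith
  · refine hls.trans ?_
    have e5 : C5 ≤ C1 + 2 * C2 + C3 + C4 + C6 := by
      have : 0 ≤ |(l : ℝ) / 2| * (1 + 1 / ε) := by positivity
      linarith
    calc C5 * ((v : ℝ) - u) * √(Real.log (Real.log X)) =
          C5 * (√(Real.log (Real.log X)) * ((v : ℝ) - u)) := by ring
      _ ≤ (C1 + 2 * C2 + C3 + C4 + C6) * (√(Real.log (Real.log X)) * ((v : ℝ) - u)) :=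
          mul_le_mul_of_nonneg_right e5 (mul_nonneg (Real.sqrt_nonneg _) hw)
      _ = _ := by ring
  · set L : ℝ := Real.log (Real.log X) with hL
    have hsq : 1 / 4 ≤ √L := Pool.Agent.L7h19.EA.sqrt_ll hX
    have hL0 : 0 ≤ L := by
      by_contra hlt
      rw [Real.sqrt_eq_zero_of_nonpos (le_of_lt (not_le.1 hlt))] at hsq
      norm_num at hsq
    have hss : √L * √L = L := Real.mul_self_sqrt hL0
    have hcard : ((good a b u v).card : ℝ) ≤ (v : ℝ) - u + 1 := by
      have e1 : (good a b u v).card ≤ (Icc u v).card := card_filter_le _ _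
      rw [Int.card_Icc] at e1
      have e2 : (((v + 1 - u).toNat : ℕ) : ℤ) = v + 1 - u := Int.toNat_of_nonneg (by omega)
      have e3 : (((v + 1 - u).toNat : ℕ) : ℝ) = (v : ℝ) + 1 - u := by exact_mod_cast e2
      have e4 : ((good a b u v).card : ℝ) ≤ (((v + 1 - u).toNat : ℕ) : ℝ) := by exact_mod_cast e1
      linarith
    have hlogX : 0 < Real.log X := Real.log_pos (by
      have : (3 : ℝ) ≤ X := by exact_mod_cast hX
      linarith)
    have hLw : √L ≤ (1 + 1 / ε) * ((v : ℝ) - u) := by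
      have e1 : √L ≤ 1 + L := by nlinarith [Real.sqrt_nonneg L, sq_nonneg (√L - 1)]
      have e2 : L ≤ Real.log X := by
        have := Real.log_le_sub_one_of_pos hlogX
        linarith
      have e3 : Real.log X ≤ (X : ℝ) ^ ε / ε := Real.log_le_rpow_div (by linarith) hε
      have e4 : (X : ℝ) ^ ε / ε ≤ ((v : ℝ) - u) / ε := div_le_div_of_nonneg_right huv hε.le
      have e5 : (1 + 1 / ε) * ((v : ℝ) - u) = ((v : ℝ) - u) + ((v : ℝ) - u) / ε := by
        field_simp
      rw [e5]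
      linarith
    have hd : ∑ t ∈ good a b u v, |(delta (a.eval t) (b.eval t) : ℝ)| ≤
        |(l : ℝ) / 2| * L * ((v : ℝ) - u + 1) + C5 * ((v : ℝ) - u) * √L := by
      have e1 : ∑ t ∈ good a b u v, |(delta (a.eval t) (b.eval t) : ℝ)| ≤
          ∑ t ∈ good a b u v, (|(l : ℝ) / 2| * L +
            |(delta (a.eval t) (b.eval t) : ℝ) - (l : ℝ) / 2 * L|) := by
        refine sum_le_sum fun t _ => ?_
        have e2 : |(l : ℝ) / 2 * L| = |(l : ℝ) / 2| * L := by rw [abs_mul, abs_of_nonneg hL0]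
        rw [← e2]
        have e3 : (delta (a.eval t) (b.eval t) : ℝ) = (l : ℝ) / 2 * L +
            ((delta (a.eval t) (b.eval t) : ℝ) - (l : ℝ) / 2 * L) := by ring
        conv_lhs => rw [e3]
        exact abs_add_le _ _
      refine e1.trans ?_
      rw [sum_add_distrib, sum_const, nsmul_eq_mul]
      refine add_le_add ?_ hls
      rw [mul_comm]
      exact mul_le_mul_of_nonneg_left hcard (by positivity)
    have hl0 : 0 ≤ |(l : ℝ) / 2| := abs_nonneg _
    have f1 : |(l : ℝ) / 2| * L ≤ |(l : ℝ) / 2| * (1 + 1 / ε) * (((v : ℝ) - u) * √L) := by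
      calc |(l : ℝ) / 2| * L = |(l : ℝ) / 2| * √L * √L := by rw [mul_assoc, hss]
        _ ≤ |(l : ℝ) / 2| * √L * ((1 + 1 / ε) * ((v : ℝ) - u)) :=
            mul_le_mul_of_nonneg_left hLw (by positivity)
        _ = _ := by ring
    have f2 : 2 * C2 * ((v : ℝ) - u) ≤ 8 * C2 * (((v : ℝ) - u) * √L) := by
      have e1 : 0 ≤ C2 * ((v : ℝ) - u) := mul_nonneg hC20 hw
      nlinarith
    have f3 : 0 ≤ ((v : ℝ) - u) * √L := mul_nonneg hw (Real.sqrt_nonneg _)
    have f4 := mul_le_mul_of_nonneg_right g6 f3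
    rw [hC6] at f4
    have f5 : (|(l : ℝ) / 2| * L + (C1 + 2 * C2 + C3 + C4 + C6) * √L) * ((v : ℝ) - u) =
        |(l : ℝ) / 2| * L * ((v : ℝ) - u) + (C1 + 2 * C2 + C3 + C4 + C6) * (((v : ℝ) - u) * √L) := by
      ring
    rw [f5]
    have f6 : |(l : ℝ) / 2| * L * ((v : ℝ) - u + 1) = |(l : ℝ) / 2| * L * ((v : ℝ) - u) +
        |(l : ℝ) / 2| * L := by ring
    rw [f6] at hd
    have f7 : (|(l : ℝ) / 2| * (1 + 1 / ε) + C5 + 8 * C2) * (((v : ℝ) - u) * √L) =
        |(l : ℝ) / 2| * (1 + 1 / ε) * (((v : ℝ) - u) * √L) + C5 * ((v : ℝ) - u) * √L +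
          8 * C2 * (((v : ℝ) - u) * √L) := by ring
    rw [f7] at f4
    linarith
  · exact (hC3 hbal X u v (by omega) hu' hv' huv).trans (mul_le_mul_of_nonneg_right g3 hw)
  · obtain ⟨e1, e2⟩ := hC4 hb hc X u v hX hu' hv' huv
    refine ⟨e1.trans (mul_le_mul_of_nonneg_right g4 hw), e2.trans ?_⟩
    refine mul_le_mul_of_nonneg_right ?_ hw
    have := mul_le_mul_of_nonneg_right g4 (Real.sqrt_nonneg (Real.log (Real.log X)))
    linarith

end Pool.Agent.Results.MP_157626_nt.EveryTwoTorsionFamily
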