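import Mathlib
import Pool.Agent.L7h19.FD.Rank
import Pool.Agent.L7h19.FD.Parts
import Pool.Agent.L7h56.FT.Cq

/-!
# All moments of `2 ^ rank` in the families `D(t) y² = x (x - A(t)) (x - B(t))`, in short intervals

Let `D, A, B` be polynomials with integer coefficients such that `D A B (A - B)` is squarefree over
`ℚ`, and `E_t : D(t) y² = x (x - A(t)) (x - B(t))`. Over the integers `t` of any interval
`[u, v] ⊆ [-X, X]` of length at least `X ^ ε`:

* for every `k` the average of `2 ^ (k (rank E_t - e_t))` is bounded, where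
  `e_t = max (0, δ_0, δ_1, δ_2)` and `2 ^ δ_c` is up to a bounded factor the Tamagawa ratio of a
  2-isogeny of `E_t`;
* if `2 ^ k (n_c + q_c) ≤ 2 (n_c' + n_c'') + n_D - q_c^D` for the three `c`, then the average of
  `2 ^ (k rank E_t)` is bounded: if `A` and `B` are constants, this holds for every `k`, so all
  moments of `2 ^ rank` are bounded over the twists of `y² = x (x - A) (x - B)` by the values of any
  squarefree polynomial `D`;
* the average rank is at most `m loglog X + O (√ loglog X)`, `m` the largest of `0` and the three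
  means of the `δ_c`, and bounded if the three means are negative.
-/

namespace Pool.Agent.Results.MP_157626_nt.FullTwoTorsionTwists

open Finset Polynomial

/-- the curve `y² = x (x - a) (x - b)` over `ℚ` -/
def E (a b : ℤ) : WeierstrassCurve ℚ := ⟨0, -((a : ℚ) + b), 0, (a : ℚ) * b, 0⟩

/-- the rank of the curve `y² = x (x - D A) (x - D B)`, isomorphic to
`D y² = x (x - A) (x - B)` -/
noncomputable def rank (D A B : ℤ) : ℕ := Module.finrank ℤ (E (D * A) (D * B)).toAffine.Point

/-- the number of the primes which divide the integer `n` -/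
def omega (n : ℤ) : ℕ := n.natAbs.primeFactors.card

/-- the number of the odd primes `p` which divide `n` such that `κ` is a nonzero square modulo `p`
(the Legendre symbol is `1`) -/
def split (κ n : ℤ) : ℕ :=
  (n.natAbs.primeFactors.filter (fun p => p ≠ 2 ∧ jacobiSym κ p = 1)).card

/-- `e = max (0, δ_0, δ_1, δ_2)` for the curve `D y² = x (x - A) (x - B)` -/
def excess (D A B : ℤ) : ℤ :=
  max 0 (max ((split (-(D * B)) A : ℤ) + split (-(B * (A - B))) D - omega B - omega (A - B) - omega D)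
    (max ((split (-(D * A)) B : ℤ) + split (A * (A - B)) D - omega A - omega (A - B) - omega D)
      ((split (D * A) (A - B) : ℤ) + split (A * B) D - omega A - omega B - omega D)))

/-- the three polynomials `A`, `B`, `A - B` -/
noncomputable def F (A B : ℤ[X]) : Fin 3 → ℤ[X] := ![A, B, A - B]

/-- the polynomials `-D B`, `-D A`, `D A`: at a prime which divides the value of `F A B c` (and no
other) the multiplicative reduction is split if the value of `kappa D A B c` is a square modulo the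
prime -/
noncomputable def kappa (D A B : ℤ[X]) : Fin 3 → ℤ[X] := ![-(D * B), -(D * A), D * A]

/-- the polynomials `-B (A - B)`, `A (A - B)`, `A B` -/
noncomputable def lam (A B : ℤ[X]) : Fin 3 → ℤ[X] := ![-(B * (A - B)), A * (A - B), A * B]

/-- the irreducible factors over `ℚ` (with multiplicity) -/
noncomputable def factors (g : ℤ[X]) : Multiset ℚ[X] :=
  UniqueFactorizationMonoid.normalizedFactors (g.map (Int.castRingHom ℚ))

/-- the number of the irreducible factors of `g` -/
noncomputable def n (g : ℤ[X]) : ℕ := (factors g).card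

open Classical in
/-- the number of the irreducible factors of `g` modulo which `κ` is a square -/
noncomputable def q (κ g : ℤ[X]) : ℕ := ((factors g).filter
  (fun p => ∃ h : ℚ[X], p ∣ κ.map (Int.castRingHom ℚ) - h ^ 2)).card

/-- the mean of `δ_c` is `mean c * loglog X` -/
noncomputable def mean (D A B : ℤ[X]) (c : Fin 3) : ℝ :=
  ((n (F A B c) : ℝ) + q (kappa D A B c) (F A B c)) / 2 - ∑ c' ∈ univ.erase c, (n (F A B c') : ℝ) -
    ((n D : ℝ) - q (lam A B c) D) / 2

lemma excess_eq (D A B : ℤ) : ((Pool.Agent.L7h19.FD.ez ∅ D A B : ℕ) : ℤ) = excess D A B := by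
  have h1 : (univ.filter (fun c : Fin 3 => c ∉ (∅ : Finset (Fin 3)))) = {0, 1, 2} := by decide
  unfold Pool.Agent.L7h19.FD.ez
  rw [h1, sup_insert, sup_insert, sup_singleton]
  have e0 : Pool.Agent.L7h19.FD.dz D A B 0 = (split (-(D * B)) A : ℤ) +
    split (-(B * (A - B))) D - omega B - omega (A - B) - omega D := rfl
  have e1 : Pool.Agent.L7h19.FD.dz D A B 1 = (split (-(D * A)) B : ℤ) +
    split (A * (A - B)) D - omega A - omega (A - B) - omega D := rfl
  have e2 : Pool.Agent.L7h19.FD.dz D A B 2 = (split (D * A) (A - B) : ℤ) +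
    split (A * B) D - omega A - omega B - omega D := rfl
  rw [e0, e1, e2]
  unfold excess
  generalize (split (-(D * B)) A : ℤ) + split (-(B * (A - B))) D - omega B - omega (A - B) -
    omega D = x
  generalize (split (-(D * A)) B : ℤ) + split (A * (A - B)) D - omega A - omega (A - B) -
    omega D = y
  generalize (split (D * A) (A - B) : ℤ) + split (A * B) D - omega A - omega B - omega D = w
  simp only [Nat.max_eq_max]
  omega

open Pool.Agent.L7h19.FT Pool.Agent.L7h19.IS in
lemma sum_mu {g : ℤ[X]} (h1 : Squarefree (Pool.Agent.L7h19.IS.mq g)) (κ : ℤ[X]) :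
    ∑ f ∈ SF g, mu f κ = ((n g : ℝ) + q κ g) / 2 := by
  classical
  have h2 : (SF g).card = n g := card_SF h1
  have h3 := Pool.Agent.L7h56.FT.s_CQ g κ h1
  have h4 : ((SF g).filter (fun f => Sqr f κ)).card = q κ g := by
    rw [h3]
    rfl
  rw [← h2, ← h4]
  have h5 : ∀ f ∈ SF g, mu f κ = (1 + if Sqr f κ then 1 else 0 : ℝ) / 2 := by
    intro f _
    unfold mu
    split_ifs <;> norm_num
  rw [sum_congr rfl h5, ← sum_div, sum_add_distrib, sum_const, nsmul_eq_mul, mul_one, sum_boole]

open Pool.Agent.L7h19.FD in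
lemma Fp_F (D A B : ℤ[X]) (c : Fin 3) : Fp D A B c.castSucc = F A B c := by
  fin_cases c <;> rfl

open Pool.Agent.L7h19.FD in
lemma sum_ne {A B : ℤ[X]} (D : ℤ[X])
    (h : Squarefree ((D * A * B * (A - B)).map (Int.castRingHom ℚ))) (c : Fin 3) :
    ∑ c' ∈ univ.filter (fun c' : Fin 4 => c' ≠ c.castSucc ∧ c' ≠ 3),
      ((Pool.Agent.L7h19.IS.SF (Fp D A B c')).card : ℝ) =
    ∑ c' ∈ univ.erase c, (n (F A B c') : ℝ) := by
  have hn : ∀ c' : Fin 4, (Pool.Agent.L7h19.IS.SF (Fp D A B c')).card = n (Fp D A B c') :=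
    fun c' => Pool.Agent.L7h19.IS.card_SF (Fp_sqf h c')
  fin_cases c
  · have e1 : univ.filter (fun c' : Fin 4 => c' ≠ (0 : Fin 3).castSucc ∧ c' ≠ 3) = {1, 2} := by
      decide
    have e2 : (univ.erase 0 : Finset (Fin 3)) = {1, 2} := by decide
    simp only [Fin.zero_eta] at *
    rw [e1, e2, sum_pair (by decide), sum_pair (by decide), hn, hn]
    rfl
  · have e1 : univ.filter (fun c' : Fin 4 => c' ≠ (1 : Fin 3).castSucc ∧ c' ≠ 3) = {0, 2} := by
      decide
    have e2 : (univ.erase 1 : Finset (Fin 3)) = {0, 2} := by decide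
    simp only [Fin.mk_one] at *
    rw [e1, e2, sum_pair (by decide), sum_pair (by decide), hn, hn]
    rfl
  · have e1 : univ.filter (fun c' : Fin 4 => c' ≠ (2 : Fin 3).castSucc ∧ c' ≠ 3) = {0, 1} := by
      decide
    have e2 : (univ.erase 2 : Finset (Fin 3)) = {0, 1} := by decide
    simp only [Fin.reduceFinMk] at *
    rw [e1, e2, sum_pair (by decide), sum_pair (by decide), hn, hn]
    rfl

open Pool.Agent.L7h19.FD in
lemma sum_ne' {A B : ℤ[X]} (D : ℤ[X])
    (h : Squarefree ((D * A * B * (A - B)).map (Int.castRingHom ℚ))) (c : Fin 3) :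
    ∑ c' ∈ univ.filter (fun c' : Fin 4 => c' ≠ c.castSucc),
      ((Pool.Agent.L7h19.IS.SF (Fp D A B c')).card : ℝ) =
    ∑ c' ∈ univ.erase c, (n (F A B c') : ℝ) + n D := by
  have h3 : (Pool.Agent.L7h19.IS.SF (Fp D A B 3)).card = n D :=
    Pool.Agent.L7h19.IS.card_SF (Fp_sqf h 3)
  rw [← sum_ne D h c, ← h3]
  have e : univ.filter (fun c' : Fin 4 => c' ≠ c.castSucc) =
      insert 3 (univ.filter (fun c' : Fin 4 => c' ≠ c.castSucc ∧ c' ≠ 3)) := by
    fin_cases c <;> decide
  rw [e, sum_insert (by simp), add_comm]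

open Pool.Agent.L7h19.FD in
lemma kzP_kappa (D A B : ℤ[X]) (c : Fin 3) : kzP D A B c.castSucc = kappa D A B c := by
  fin_cases c <;> rfl

open Pool.Agent.L7h19.FD in
lemma kdP_lam (A B : ℤ[X]) (c : Fin 3) : kdP A B c = lam A B c := by
  fin_cases c <;> rfl

open Pool.Agent.L7h19.FD in
lemma sqf_D {D A B : ℤ[X]} (h : Squarefree ((D * A * B * (A - B)).map (Int.castRingHom ℚ))) :
    Squarefree (Pool.Agent.L7h19.IS.mq D) := Fp_sqf h 3

open Pool.Agent.L7h19.FD in
lemma sqf_F {D A B : ℤ[X]} (h : Squarefree ((D * A * B * (A - B)).map (Int.castRingHom ℚ)))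
    (c : Fin 3) : Squarefree (Pool.Agent.L7h19.IS.mq (F A B c)) := by
  rw [← Fp_F D]
  exact Fp_sqf h c.castSucc

open Pool.Agent.L7h19.FD in
lemma Mc_mean {D A B : ℤ[X]} (h : Squarefree ((D * A * B * (A - B)).map (Int.castRingHom ℚ)))
    (c : Fin 3) : Mc D A B c = mean D A B c := by
  unfold Mc mean
  rw [Fp_F, sum_mu (sqf_F h c), sum_mu (sqf_D h), sum_ne' D h c, kzP_kappa, kdP_lam]
  ring

/-- All moments of `2 ^ (rank - e)`, and of `2 ^ rank`, and the average rank, in the family
`D(t) y² = x (x - A(t)) (x - B(t))` over short intervals. -/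
theorem result (D A B : ℤ[X]) (h : Squarefree ((D * A * B * (A - B)).map (Int.castRingHom ℚ)))
    (ε : ℝ) (hε : 0 < ε) (k : ℕ) :
    ∃ C : ℝ, ∀ (X : ℕ) (u v : ℤ), 3 ≤ X → -(X : ℤ) ≤ u → v ≤ X → (X : ℝ) ^ ε ≤ (v : ℝ) - u →
      (∑ t ∈ (Icc u v).filter (fun t : ℤ =>
          D.eval t * A.eval t * B.eval t * (A.eval t - B.eval t) ≠ 0),
        (2 : ℝ) ^ ((k : ℝ) * ((rank (D.eval t) (A.eval t) (B.eval t) : ℝ) -
          (excess (D.eval t) (A.eval t) (B.eval t) : ℝ))) ≤ C * ((v : ℝ) - u)) ∧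
      ((∀ c, 2 ^ k * (n (F A B c) + q (kappa D A B c) (F A B c)) + q (lam A B c) D ≤
          2 * ∑ c' ∈ univ.erase c, n (F A B c') + n D) →
        ∑ t ∈ (Icc u v).filter (fun t : ℤ =>
          D.eval t * A.eval t * B.eval t * (A.eval t - B.eval t) ≠ 0),
          (2 : ℝ) ^ (k * rank (D.eval t) (A.eval t) (B.eval t)) ≤ C * ((v : ℝ) - u)) ∧
      (∑ t ∈ (Icc u v).filter (fun t : ℤ =>
          D.eval t * A.eval t * B.eval t * (A.eval t - B.eval t) ≠ 0),
        (rank (D.eval t) (A.eval t) (B.eval t) : ℝ) ≤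
        (max 0 (max (mean D A B 0) (max (mean D A B 1) (mean D A B 2))) *
          Real.log (Real.log X) + C * √(Real.log (Real.log X))) * ((v : ℝ) - u)) ∧
      ((∀ c, mean D A B c < 0) →
        ∑ t ∈ (Icc u v).filter (fun t : ℤ =>
          D.eval t * A.eval t * B.eval t * (A.eval t - B.eval t) ≠ 0),
          (rank (D.eval t) (A.eval t) (B.eval t) : ℝ) ≤ C * ((v : ℝ) - u)) := by
  classical
  have hlen : ∀ (X : ℕ) (u v : ℤ), 3 ≤ X → (X : ℝ) ^ ε ≤ (v : ℝ) - u →
      u ≤ v ∧ (0 : ℝ) ≤ (v : ℝ) - u ∧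
      ((((Icc u v).filter (fun t : ℤ =>
        D.eval t * A.eval t * B.eval t * (A.eval t - B.eval t) ≠ 0)).card :
        ℕ) : ℝ) ≤ 2 * ((v : ℝ) - u) := by
    intro X u v hX huv
    have hXr : (1 : ℝ) ≤ X := by
      have : (3 : ℝ) ≤ X := by exact_mod_cast hX
      linarith
    have h1 : (1 : ℝ) ≤ (v : ℝ) - u := (Real.one_le_rpow hXr hε.le).trans huv
    have h2 : (1 : ℤ) ≤ v - u := by exact_mod_cast h1
    refine ⟨by omega, by linarith, ?_⟩
    have h3 : ((Icc u v).filter (fun t : ℤ =>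
        D.eval t * A.eval t * B.eval t * (A.eval t - B.eval t) ≠ 0)).card ≤ (Icc u v).card :=
      card_le_card (filter_subset _ _)
    rw [Int.card_Icc] at h3
    have h4 : ((((Icc u v).filter (fun t : ℤ =>
        D.eval t * A.eval t * B.eval t * (A.eval t - B.eval t) ≠ 0)).card : ℕ) : ℤ) ≤
          v - u + 1 := by omega
    have h5 : ((((Icc u v).filter (fun t : ℤ =>
        D.eval t * A.eval t * B.eval t * (A.eval t - B.eval t) ≠ 0)).card : ℕ) : ℝ) ≤
          (v : ℝ) - u + 1 := by
      exact_mod_cast h4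
    linarith
  -- the average rank
  obtain ⟨C3, hC30, hC3⟩ := Pool.Agent.L7h19.FD.rankF Pool.Agent.L7h19.FD.parts
    Pool.Agent.L7h19.FD.tkv0 Pool.Agent.L7h19.FD.dzd0 h
    (max 0 (max (mean D A B 0) (max (mean D A B 1) (mean D A B 2)))) (le_max_left _ _)
    (fun c => by
      rw [Mc_mean h]
      fin_cases c
      · exact (le_max_left _ _).trans (le_max_right _ _)
      · exact (le_max_left _ _).trans ((le_max_right _ _).trans (le_max_right _ _))
      · exact (le_max_right _ _).trans ((le_max_right _ _).trans (le_max_right _ _))) ε hε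
  -- the moments
  have hmom : ∃ C : ℝ, 0 ≤ C ∧ ∀ (X : ℕ) (u v : ℤ), 3 ≤ X → -(X : ℤ) ≤ u → v ≤ X →
      (X : ℝ) ^ ε ≤ (v : ℝ) - u →
      (∑ t ∈ (Icc u v).filter (fun t : ℤ =>
          D.eval t * A.eval t * B.eval t * (A.eval t - B.eval t) ≠ 0),
        (2 : ℝ) ^ ((k : ℝ) * ((rank (D.eval t) (A.eval t) (B.eval t) : ℝ) -
          (excess (D.eval t) (A.eval t) (B.eval t) : ℝ))) ≤ C * ((v : ℝ) - u)) ∧
      ((∀ c, 2 ^ k * (n (F A B c) + q (kappa D A B c) (F A B c)) + q (lam A B c) D ≤
          2 * ∑ c' ∈ univ.erase c, n (F A B c') + n D) →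
        ∑ t ∈ (Icc u v).filter (fun t : ℤ =>
          D.eval t * A.eval t * B.eval t * (A.eval t - B.eval t) ≠ 0),
          (2 : ℝ) ^ (k * rank (D.eval t) (A.eval t) (B.eval t)) ≤ C * ((v : ℝ) - u)) := by
    rcases Nat.eq_zero_or_pos k with hk | hk
    · subst hk
      refine ⟨2, by norm_num, fun X u v hX hu hv huv => ?_⟩
      obtain ⟨_, _, h3⟩ := hlen X u v hX huv
      refine ⟨le_trans (le_of_eq ?_) h3, fun _ => le_trans (le_of_eq ?_) h3⟩
      · rw [sum_congr rfl fun t _ => by rw [Nat.cast_zero, zero_mul, Real.rpow_zero], sum_const,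
          nsmul_eq_mul, mul_one]
      · rw [sum_congr rfl fun t _ => by rw [zero_mul, pow_zero], sum_const, nsmul_eq_mul, mul_one]
    · obtain ⟨C1, hC10, hC1⟩ := Pool.Agent.L7h19.FD.momF Pool.Agent.L7h19.FD.parts h k hk ∅
        (fun c hc => absurd hc (notMem_empty c)) ε hε
      have h2 : ∃ C2 : ℝ, 0 ≤ C2 ∧
          ((∀ c, 2 ^ k * (n (F A B c) + q (kappa D A B c) (F A B c)) + q (lam A B c) D ≤
            2 * ∑ c' ∈ univ.erase c, n (F A B c') + n D) →
          ∀ (X : ℕ) (u v : ℤ), 1 ≤ X → u.natAbs ≤ X →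
          v.natAbs ≤ X → (X : ℝ) ^ ε ≤ (v : ℝ) - u →
          ∑ t ∈ (Icc u v).filter (fun t : ℤ =>
            D.eval t * A.eval t * B.eval t * (A.eval t - B.eval t) ≠ 0),
            ((2 : ℝ) ^ ((Module.finrank ℤ
              (Pool.Agent.W262.RK.EAB (D.eval t * A.eval t) (D.eval t * B.eval t)).toAffine.Point :
                ℕ) -
              (Pool.Agent.L7h19.FD.ez univ (D.eval t) (A.eval t) (B.eval t) : ℝ) : ℝ)) ^ k ≤
            C2 * ((v : ℝ) - u)) := by
        by_cases hn : ∀ c, 2 ^ k * (n (F A B c) + q (kappa D A B c) (F A B c)) +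
            q (lam A B c) D ≤ 2 * ∑ c' ∈ univ.erase c, n (F A B c') + n D
        · obtain ⟨C2, hC20, hC2⟩ := Pool.Agent.L7h19.FD.momF Pool.Agent.L7h19.FD.parts h k hk univ
            (fun c _ => by
              have h1 := hn c
              have h1' : (2 : ℝ) ^ k * ((n (F A B c) : ℝ) + q (kappa D A B c) (F A B c)) +
                  q (lam A B c) D ≤ 2 * ∑ c' ∈ univ.erase c, (n (F A B c') : ℝ) + n D := by
                exact_mod_cast h1
              have h4 : ((Pool.Agent.L7h19.IS.SF D).card : ℝ) = n D := by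
                have : (Pool.Agent.L7h19.IS.SF D).card = n D :=
                  Pool.Agent.L7h19.IS.card_SF (sqf_D h)
                rw [this]
              rw [Fp_F, sum_mu (sqf_F h c), sum_ne D h c, kzP_kappa, kdP_lam, sum_sub_distrib,
                sum_mu (sqf_D h), sum_const, nsmul_eq_mul, mul_one, h4]
              linarith) ε hε
          exact ⟨C2, hC20, fun _ => hC2⟩
        · exact ⟨0, le_rfl, fun h' => absurd h' hn⟩
      obtain ⟨C2, hC20, hC2⟩ := h2
      refine ⟨C1 + C2, by positivity, fun X u v hX hu hv huv => ?_⟩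
      obtain ⟨huv1, hw, -⟩ := hlen X u v hX huv
      refine ⟨?_, fun hn => ?_⟩
      · have h3 := hC1 X u v (by omega) (by omega) (by omega) huv
        refine (le_trans (le_of_eq ?_) h3).trans (mul_le_mul_of_nonneg_right (by linarith) hw)
        refine sum_congr rfl fun t _ => ?_
        rw [mul_comm, Real.rpow_mul_natCast (by norm_num), ← excess_eq]
        push_cast
        rfl
      · have h3 := hC2 hn X u v (by omega) (by omega) (by omega) huv
        refine (le_trans (le_of_eq ?_) h3).trans (mul_le_mul_of_nonneg_right (by linarith) hw)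
        refine sum_congr rfl fun t _ => ?_
        have h4 : Pool.Agent.L7h19.FD.ez univ (D.eval t) (A.eval t) (B.eval t) = 0 := by
          unfold Pool.Agent.L7h19.FD.ez
          rw [filter_false_of_mem (fun c _ h => h (mem_univ c)), sup_empty]
          rfl
        rw [h4, Nat.cast_zero, sub_zero, Real.rpow_natCast, mul_comm k, pow_mul]
        rfl
  obtain ⟨C1, hC10, hC1⟩ := hmom
  refine ⟨C1 + C3, fun X u v hX hu hv huv => ?_⟩
  obtain ⟨huv1, hw, -⟩ := hlen X u v hX huv
  obtain ⟨m1, m2⟩ := hC1 X u v hX hu hv huv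
  obtain ⟨r1, r2⟩ := hC3 X u v hX (by omega) (by omega) huv
  have hQ0 : 0 ≤ √(Real.log (Real.log X)) := Real.sqrt_nonneg _
  refine ⟨m1.trans (mul_le_mul_of_nonneg_right (by linarith) hw),
    fun hn => (m2 hn).trans (mul_le_mul_of_nonneg_right (by linarith) hw), ?_, fun hn => ?_⟩
  · refine le_trans (le_of_eq rfl) (r1.trans (mul_le_mul_of_nonneg_right ?_ hw))
    have : C3 * √(Real.log (Real.log X)) ≤ (C1 + C3) * √(Real.log (Real.log X)) :=
      mul_le_mul_of_nonneg_right (by linarith) hQ0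
    linarith
  · refine le_trans (le_of_eq rfl) ((r2 (fun c => by
      rw [Mc_mean h]
      exact hn c)).trans (mul_le_mul_of_nonneg_right (by linarith) hw))

end Pool.Agent.Results.MP_157626_nt.FullTwoTorsionTwists
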