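import Mathlib
import Pool.Agent.L7h19.RP.GAll
import Pool.Agent.L7h19.RP.AllParts
import Pool.Agent.L7h23.RP.StFree
import Pool.Agent.L7h50.UP.Up
import Pool.Agent.L7h50.UP.Up0
import Pool.Agent.L7h80.RP.StCnt3
import Pool.Agent.L7h97.RP.StComb
import Pool.Agent.L7h97.RP.StCrude
import Pool.Agent.L7h97.RP.StFew
import Pool.Agent.L7h97.RP.StSq

/-!
# Joint moments of `2 ^ rank` at rational values of the parameter, in short rectangles

Let `f_j ∈ ℤ[x, y]` be irreducible binary forms, pairwise non-associated. Consider finitely many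
families `E_i(x, y) : Y² = X (X - F_{i,0}(x, y)) (X - F_{i,1}(x, y))`, `i ∈ I`, where `F_{i,k}` is a
nonzero constant times the product of the forms of the set `T i` (common factors, these may be
shared by the families in any way) and of the forms of the set `S i k`, and
`F_{i,0} - F_{i,1} = F_{i,2}`. Let `P` be a set, possibly empty, of the forms (they need not occur
in the `F_{i,k}`). Let `n_{i,k}` be the number of elements of `S i k` outside `P`, and `q_{i,k}` the
number of those `f_j` among them such that `F_{i,k'}` or `-F_{i,k'}` is a square in the function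
field of the curve `f_j = 0` for some `k' ≠ k` (never the case if the degree is odd, and usually not
the case if the degree is even). Suppose that `n_{i,k} + q_{i,k}` is at most the sum of the two
other numbers `n_{i,k'}`. Then, for every `ε > 0`, the sum of the product of the `2 ^ rank E_i(t)`
over the coprime pairs `t = (x, y)` (the rational values `x / y` of the parameter) in any rectangle
contained in `[-X, X]²`, with sides at least `X ^ ε`, at which the curves are nonsingular and all the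
forms of `P` have prime values is `O(area / (log X) ^ |P|)`. For `P = ∅` the sum is over all the
pairs, and its average is bounded.
-/

namespace Pool.Agent.Results.MP_157626_nt.RationalFibres

open Finset

/-- the curve `y² = x (x - A) (x - B)` over `ℚ` -/
def E (A B : ℤ) : WeierstrassCurve ℚ := ⟨0, -((A : ℚ) + B), 0, (A : ℚ) * B, 0⟩

/-- `F = c * ∏_{j ∈ T} f_j * ∏_{j ∈ S} f_j` -/
noncomputable def F {J : Type} (f : J → MvPolynomial (Fin 2) ℤ) (c : ℤ) (T S : Finset J) :
    MvPolynomial (Fin 2) ℤ := MvPolynomial.C c * (∏ j ∈ T, f j) * ∏ j ∈ S, f j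

/-- for irreducible `g`: `G` is a square in the field of fractions of `ℤ[x, y] / (g)` -/
def SquareIn (g G : MvPolynomial (Fin 2) ℤ) : Prop :=
  ∃ A B : MvPolynomial (Fin 2) ℤ, ¬ g ∣ B ∧ g ∣ B ^ 2 * G - A ^ 2

open Classical in
/-- the elements `j` of `S k` outside `P` such that `F_{k'}` or `-F_{k'}` is a square in the
function field of the curve `f_j = 0` for some `k' ≠ k` -/
noncomputable def Q {J : Type} [DecidableEq J] (f : J → MvPolynomial (Fin 2) ℤ) (P T : Finset J)
    (a : Fin 3 → ℤ) (S : Fin 3 → Finset J) (k : Fin 3) : Finset J :=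
  (S k \ P).filter (fun j => ∃ k', k' ≠ k ∧
    (SquareIn (f j) (F f (a k') T (S k')) ∨ SquareIn (f j) (-(F f (a k') T (S k')))))

/-- The joint moments of the `2 ^ rank` of finitely many families over the rational values of the
parameter in short rectangles, over all of them or over those with prime values of the forms of
`P`. -/
theorem result (I J : Type) [Fintype I] [Fintype J] [DecidableEq J]
    (f : J → MvPolynomial (Fin 2) ℤ) (d : J → ℕ)
    (P : Finset J) (a : I → Fin 3 → ℤ) (T : I → Finset J) (S : I → Fin 3 → Finset J)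
    (hf : ∀ j, Irreducible (f j)) (hh : ∀ j, (f j).IsHomogeneous (d j)) (hd : ∀ j, 0 < d j)
    (hnd : ∀ j l, j ≠ l → ¬ Associated (f j) (f l))
    (ha : ∀ i k, a i k ≠ 0)
    (hn : ∀ i k, (S i k \ P).card + (Q f P (T i) (a i) (S i) k).card ≤
      ∑ k' ∈ univ.erase k, (S i k' \ P).card)
    (hST : ∀ i k, Disjoint (S i k) (T i))
    (hSS : ∀ i k k', k ≠ k' → Disjoint (S i k) (S i k'))
    (hex : ∀ i i', i ≠ i' → ∀ k, ∀ j ∈ S i k, j ∉ P → j ∉ T i' ∧ ∀ k', j ∉ S i' k')
    (hF : ∀ i, F f (a i 0) (T i) (S i 0) - F f (a i 1) (T i) (S i 1) =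
      F f (a i 2) (T i) (S i 2)) (ε : ℝ) (hε : 0 < ε) :
    ∃ C : ℝ, ∀ (X : ℕ) (x₁ x₂ y₁ y₂ : ℤ), 2 ≤ X → -(X : ℤ) ≤ x₁ → x₂ ≤ X → -(X : ℤ) ≤ y₁ →
      y₂ ≤ X → (X : ℝ) ^ ε ≤ (x₂ : ℝ) - x₁ → (X : ℝ) ^ ε ≤ (y₂ : ℝ) - y₁ →
      ∑ t ∈ (Icc x₁ x₂ ×ˢ Icc y₁ y₂).filter (fun t : ℤ × ℤ => IsCoprime t.1 t.2 ∧
        (∀ i k, MvPolynomial.eval ![t.1, t.2] (F f (a i k) (T i) (S i k)) ≠ 0) ∧
        ∀ j ∈ P, (MvPolynomial.eval ![t.1, t.2] (f j)).natAbs.Prime),
      ∏ i, (2 : ℝ) ^ Module.finrank ℤ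
        (E (MvPolynomial.eval ![t.1, t.2] (F f (a i 0) (T i) (S i 0)))
          (MvPolynomial.eval ![t.1, t.2] (F f (a i 1) (T i) (S i 1)))).toAffine.Point ≤
      C * (((x₂ : ℝ) - x₁) * ((y₂ : ℝ) - y₁)) / (Real.log X) ^ P.card := by
  classical
  obtain ⟨C, hC⟩ := Pool.Agent.L7h19.RP.forms_g
    ⟨Pool.Agent.L7h50.UP.stUp, Pool.Agent.L7h50.UP.stUp0, Pool.Agent.L7h19.RP.parts.bw,
      Pool.Agent.L7h23.RP.stFree, Pool.Agent.L7h97.RP.stComb, Pool.Agent.L7h19.RP.parts.sub,
      Pool.Agent.L7h19.RP.parts.mod, Pool.Agent.L7h19.RP.parts.rank⟩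
    Pool.Agent.L7h80.RP.stCnt3 Pool.Agent.L7h97.RP.stCrude Pool.Agent.L7h97.RP.stFew
    Pool.Agent.L7h97.RP.stSq f d hf hh hd hnd P T S a ha hST hSS hex
    (fun i k => by
      refine le_trans (le_of_eq ?_) (hn i k)
      congr 2) (fun i => hF i) ε hε
  refine ⟨C, fun X x₁ x₂ y₁ y₂ hX hx1 hx2 hy1 hy2 hx hy => ?_⟩
  have hXr : (2 : ℝ) ≤ X := by exact_mod_cast hX
  have hlog : 0 < (Real.log X) ^ P.card := pow_pos (Real.log_pos (by linarith)) _
  have h := hC X x₁ x₂ y₁ y₂ (by omega) hx1 hx2 hy1 hy2 hx hy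
  rw [le_div_iff₀ hlog, mul_comm]
  refine le_trans (le_of_eq ?_) h
  congr 1

end Pool.Agent.Results.MP_157626_nt.RationalFibres
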